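import Pool.Agent.R207.HH3

set_option autoImplicit false

/-! # Nonexistence of distributional solutions of polyharmonic Hardy-Henon equations -/

namespace Pool.Agent.Results.MP_643687_an.Nonexistence

open MeasureTheory Real Set Filter Topology InnerProductSpace Laplacian
open scoped ContDiff

/-- `u` is a distributional solution of `(-Δ)^m u = |x|^σ u^p` in `ℝⁿ`. -/
structure IsDistributionalSolution (n m : ℕ) (p σ : ℝ) (u : EuclideanSpace ℝ (Fin n) → ℝ) :
    Prop where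
  nonneg : ∀ᵐ x, 0 ≤ u x
  nontrivial : ¬ u =ᵐ[volume] 0
  locInt : LocallyIntegrable u
  locInt' : LocallyIntegrable (fun x => ‖x‖ ^ σ * u x ^ p)
  eqn : ∀ φ : EuclideanSpace ℝ (Fin n) → ℝ, ContDiff ℝ ∞ φ → HasCompactSupport φ →
    ∫ x, u x * (fun (f : EuclideanSpace ℝ (Fin n) → ℝ) y => -Δ f y)^[m] φ x =
      ∫ x, ‖x‖ ^ σ * u x ^ p * φ x

open Pool.Agent.R207.HH

theorem nonexistence {n m : ℕ} {p σ θ : ℝ} (hn : 1 ≤ n) (hp : 1 < p) (hσ : σ < 0)
    (hθ : θ * (p - 1) = 2 * m + σ) {k : ℕ} (hk1 : 1 ≤ k) (hkm : k ≤ m)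
    (hodd : Odd k) (hγ1 : 2 * ((k : ℝ) - 1) < -θ) (hγ2 : k = m ∨ -θ < 2 * k) :
    ¬ ∃ u, IsDistributionalSolution n m p σ u := by
  rintro ⟨u, hu⟩
  let v : EuclideanSpace ℝ (Fin n) → ℝ := fun x => max (u x) 0
  have hvu : v =ᵐ[volume] u := by
    filter_upwards [hu.nonneg] with x hx
    exact max_eq_left hx
  have hf : (fun x => ‖x‖ ^ σ * v x ^ p) =ᵐ[volume] fun x => ‖x‖ ^ σ * u x ^ p := by
    filter_upwards [hvu] with x hx
    rw [hx]
  have hv : Sol m p σ v :=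
    { nonneg := fun x => le_max_right _ _
      li := (locallyIntegrable_congr hvu).mpr hu.locInt
      lif := (locallyIntegrable_congr hf).mpr hu.locInt'
      eqn := by
        intro φ hφ hφc
        have h1 := hu.eqn φ hφ hφc
        have e1 : ∫ x, v x * Pool.Agent.R207.QC.NL^[m] φ x =
            ∫ x, u x * (fun (f : EuclideanSpace ℝ (Fin n) → ℝ) y => -Δ f y)^[m] φ x := by
          apply integral_congr_ae
          filter_upwards [hvu] with x hx
          rw [hx]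
          rfl
        have e2 : ∫ x, ‖x‖ ^ σ * v x ^ p * φ x = ∫ x, ‖x‖ ^ σ * u x ^ p * φ x := by
          apply integral_congr_ae
          filter_upwards [hvu] with x hx
          rw [hx]
        rw [e1, e2]
        exact h1 }
  exact hu.nontrivial (hvu.symm.trans (hv.eq_zero hn hp hσ hθ hk1 hkm hodd hγ1 hγ2))

/-- The answer to Q1 is no, for every `m ≥ 2`. More precisely, with `θ = (2m+σ)/(p-1) < 0`, there is
no distributional solution if `2(k-1) < -θ < 2k` for an odd `k ≤ m` (or `2(m-1) < -θ`, `m` odd);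
in particular there is none if `-2 < θ < 0`. -/
theorem result :
    (∀ (n m : ℕ) (p σ : ℝ), 1 ≤ n → 2 ≤ m → 1 < p → σ < -(2 * m) → ∀ k : ℕ, Odd k → k ≤ m →
      2 * ((k : ℝ) - 1) < -((2 * m + σ) / (p - 1)) →
      (k = m ∨ -((2 * m + σ) / (p - 1)) < 2 * k) →
        ¬ ∃ u, IsDistributionalSolution n m p σ u) ∧
    (∀ (n m : ℕ) (p σ : ℝ), 1 ≤ n → 2 ≤ m → 1 < p → σ < -(2 * m) →
      -2 < (2 * m + σ) / (p - 1) → ¬ ∃ u, IsDistributionalSolution n m p σ u) ∧
    (∀ m : ℕ, 2 ≤ m → ¬ ∀ (n : ℕ) (p σ : ℝ), 1 ≤ n → 1 < p → σ < -(2 * m) →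
      0 < n - 2 * m - (2 * m + σ) / (p - 1) → ∃ u, IsDistributionalSolution n m p σ u) := by
  have h1 : ∀ (n m : ℕ) (p σ : ℝ), 1 ≤ n → 2 ≤ m → 1 < p → σ < -(2 * m) → ∀ k : ℕ, Odd k →
      k ≤ m → 2 * ((k : ℝ) - 1) < -((2 * m + σ) / (p - 1)) →
      (k = m ∨ -((2 * m + σ) / (p - 1)) < 2 * k) →
        ¬ ∃ u, IsDistributionalSolution n m p σ u := by
    intro n m p σ hn hm hp hσ k hodd hkm h2 h3
    have hm0 : (0 : ℝ) ≤ m := by positivity
    exact nonexistence hn hp (by linarith) (div_mul_cancel₀ _ (by linarith : p - 1 ≠ 0))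
      hodd.pos hkm hodd h2 h3
  have h2 : ∀ (n m : ℕ) (p σ : ℝ), 1 ≤ n → 2 ≤ m → 1 < p → σ < -(2 * m) →
      -2 < (2 * m + σ) / (p - 1) → ¬ ∃ u, IsDistributionalSolution n m p σ u := by
    intro n m p σ hn hm hp hσ hθ
    apply h1 n m p σ hn hm hp hσ 1 odd_one (by omega)
    · have : (2 * m + σ) / (p - 1) < 0 := div_neg_of_neg_of_pos (by linarith) (by linarith)
      push_cast
      linarith
    · right
      push_cast
      linarith
  refine ⟨h1, h2, ?_⟩
  intro m hm h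
  have hm0 : (2 : ℝ) ≤ m := by exact_mod_cast hm
  have h3 := h (2 * m + 1) 2 (-(2 * m) - 1) (by omega) (by norm_num) (by linarith) (by
    push_cast
    norm_num
    linarith)
  exact h2 (2 * m + 1) m 2 (-(2 * m) - 1) (by omega) hm (by norm_num) (by linarith) (by
    norm_num
    linarith) h3

end Pool.Agent.Results.MP_643687_an.Nonexistence
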